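import Pool.Agent.H241.Orders

/-!
# An Abelian differential outside the omega-limit set of its horocycle orbit
-/

namespace Pool.Agent.Results.MP_943ece_an.OutsideOmegaLimit

open Pool.Agent.H241 Topology Filter

/-- There is a translation surface `x` in the stratum `H(3, 3, 3, 3)` for which no sequence
`s n` tending to infinity has `u (s n) x` tending to `x`. -/
theorem result : ∃ x ∈ stratum {3, 3, 3, 3}, ¬ ∃ s : ℕ → ℝ, Tendsto s atTop atTop ∧
    Tendsto (fun n => horo (s n) x) atTop (𝓝 x) := by
  obtain ⟨x, hx, V, hV, h⟩ := main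
  refine ⟨x, hx, ?_⟩
  rintro ⟨s, hs, ht⟩
  obtain ⟨n, h1, h2⟩ := ((ht.eventually hV).and (hs.eventually_gt_atTop 1)).exists
  have h3 := h (s n) h1
  rw [abs_of_pos (by linarith)] at h3
  linarith

end Pool.Agent.Results.MP_943ece_an.OutsideOmegaLimit
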